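import Pool.Agent.Y756.HB.Full2

set_option autoImplicit false

open MP4403b8

namespace Pool.Agent.Results.MP_4403b8_ag.AllMonomialIdeals

/-- The ideals obtained from the monomial ideals of colength `n` by finitely many interchanges
`x ↔ y` of the variables and substitutions `x ↦ x - h(y)` with `h(0) = 0`. (For instance all
curvilinear ideals `(x - h(y), y^n)` and `(y - h(x), x^n)`.) -/
inductive Orbit (n : ℕ) : Ideal (MvPolynomial (Fin 2) ℂ) → Prop
  | mono (M : Ideal (MvPolynomial (Fin 2) ℂ)) :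
      IsHilbPoint n ℂ M → IsMonomialIdeal M → Orbit n M
  | swap (K : Ideal (MvPolynomial (Fin 2) ℂ)) : Orbit n K →
      Orbit n (K.map (MvPolynomial.rename (Equiv.swap (0 : Fin 2) 1) :
        MvPolynomial (Fin 2) ℂ →ₐ[ℂ] MvPolynomial (Fin 2) ℂ))
  | shear (K : Ideal (MvPolynomial (Fin 2) ℂ)) (h : Polynomial ℂ) : Orbit n K → h.coeff 0 = 0 →
      Orbit n (K.map (MvPolynomial.aeval ![MvPolynomial.X 0 -
        Polynomial.aeval (MvPolynomial.X 1 : MvPolynomial (Fin 2) ℂ) h, MvPolynomial.X 1] :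
          MvPolynomial (Fin 2) ℂ →ₐ[ℂ] MvPolynomial (Fin 2) ℂ))

lemma Orbit.good {n : ℕ} (hn : 2 ≤ n) {K : Ideal (MvPolynomial (Fin 2) ℂ)} (hK : Orbit n K) :
    IsHilbPoint n ℂ K ∧ Pool.Agent.Y756.HB.Good n K := by
  induction hK with
  | mono M hM mM => exact ⟨hM, Pool.Agent.Y756.HB.good_mon n hn M hM mM⟩
  | swap K _ ih => exact ⟨sw_hilb n K ih.1, Pool.Agent.Y756.HB.good_sw n hn K ih.2⟩
  | shear K h _ h0 ih =>
    exact ⟨Pool.Agent.Y756.HB.hilb_shI n h K ih.1,
      Pool.Agent.Y756.HB.good_shear2 n hn h h0 K ih.2⟩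

/-- If there are two distinct monomial ideals of colength `n` in `ℂ[x,y]`, then one smooth rational
curve in `Hilb^n(ℂ²)` contains the points of ALL monomial ideals of colength `n`. Moreover, if
`n ≥ 4`, this closed embedding `φ` of `ℙ¹` can be chosen with `φ(a_j) = K_j` for any finite family of
distinct points `a_j` of the affine line and distinct ideals `K_j ≠ (y, x^n)` which are images of
monomial ideals of colength `n` under compositions of interchanges `x ↔ y` and substitutions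
`x ↦ x - h(y)`, `h(0) = 0`. -/
theorem result (n : ℕ)
    (hn : ∃ I J : Ideal (MvPolynomial (Fin 2) ℂ), IsHilbPoint n ℂ I ∧ IsHilbPoint n ℂ J ∧
      IsMonomialIdeal I ∧ IsMonomialIdeal J ∧ I ≠ J)
    (r : Type) [Finite r] (hr : IsEmpty r ∨ 4 ≤ n)
    (K : r → Ideal (MvPolynomial (Fin 2) ℂ)) (a : r → ℂ) (hK : ∀ j, Orbit n (K j))
    (hc : ∀ j, K j ≠ Ideal.span {MvPolynomial.X 1, MvPolynomial.X 0 ^ n})
    (hKi : Function.Injective K) (ha : Function.Injective a) :
    ∃ F : P1Family n, F.IsClosedEmbedding ∧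
      (∀ I : Ideal (MvPolynomial (Fin 2) ℂ), IsHilbPoint n ℂ I → IsMonomialIdeal I →
        I ∈ Set.range F.value) ∧
      ∀ j, F.value ((a j : ℂ) : OnePoint ℂ) = K j := by
  have h2 : 2 ≤ n := by
    by_contra hcon
    obtain ⟨I, J, hI, hJ, mI, mJ, hIJ⟩ := hn
    exact hIJ (Pool.Agent.Y756.HB.small n (by omega) I J hI hJ mI mJ)
  rcases hr with hr | hr
  · obtain ⟨F, hF, hall⟩ := Pool.Agent.Y756.HB.all_mon n h2
    exact ⟨F, hF, hall, fun j => (hr.false j).elim⟩
  · obtain ⟨F, hF, hall, hv, -⟩ := Pool.Agent.Y756.HB.full2 n hr K a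
      (fun j => ((hK j).good h2).1) (fun j => ((hK j).good h2).2)
      (fun j => by rw [Pool.Agent.Y756.HB.Col_one]; exact hc j) hKi ha
    exact ⟨F, hF, hall, hv⟩

end Pool.Agent.Results.MP_4403b8_ag.AllMonomialIdeals
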